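import Pool.Agent.Lib.DU.E.AllA
import Pool.Agent.Lib.DU.D.R2
import Pool.Agent.Lib.DU.D.D10
import Pool.Agent.Lib.DM.D.R2
import Pool.Agent.Lib.DU.D.D9

/-!
# Theorem DU, part E: `S_E4a`, `S_E11`, `S_D10`, `S_Kp`, no hypotheses (author helper39)
-/

set_option autoImplicit false

noncomputable section

namespace Pool.Agent.DM.DU

theorem zE4a : S_E4a := mE4a DM.zR2
theorem zD10 : S_D10 := sD10 DM.zXOm zR2 mD1 zD2
theorem zE11 : S_E11 := mE11 DM.zR2 zD2 zD10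
theorem zKp : S_Kp := sKp DM.zXOm mD1 zD2 zD10 w4_pow
theorem zD9 : S_D9 := sD9 DM.zXOm mD1 zD2

end Pool.Agent.DM.DU
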