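import Pool.Agent.Lib.DU.D.Kp
import Pool.Agent.Lib.DM.E.InC
import Pool.Agent.Lib.DM.H3.AllZ
import Pool.Agent.Lib.DS.E.PsC
import Pool.Agent.Lib.DS.E.AllZ
import Pool.Agent.Lib.DL.K0
import Pool.Agent.Lib.DL.K2

/-!
# Theorem DU, part E: the elements outside of `Gal(Om/K)` in the second framing: `S_E11` (author helper39)

`e11A`: the general half, all imaginary quadratic fields, no hypotheses. `sE11`: from `S_E4a`, `S_D2`, `S_D10`, `DM.S_D1`.
-/

set_option autoImplicit false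

open scoped Pointwise nonZeroDivisors

noncomputable section

namespace Pool.Agent.DM.DU

open Pool.Agent.MuZ Pool.Agent.FW NumberField IsDedekindDomain
open Pool.Agent.DI (io ofC io_inj exists_io io_ofC ofC_io VP MP UP TP ex)
open Pool.Agent.DN

/-- The first half of `S_E11`. -/
def S_E11a : Prop :=
  ∀ (n t : ℕ) [SqN n t] (N : ℕ), 0 < N → 60 ∣ N →
    (∀ τ : Gal(Om/ℚ), τ ∉ GK n t → (∃ a : Ideal (OO n t), DR.PsiC τ N a) ∧
      ∀ v : OO n t, τ (toO v) = toO (cjO v)) ∧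
    (∀ (τ : Gal(Om/ℚ)) (a : Ideal (OO n t)), DR.PsiC τ N a → G30 a ∧
      (∀ ζ : Om, ζ ^ N = 1 → τ ζ * ζ ^ NI a = 1) ∧
      (∀ b : Ideal (OO n t), G30 b → τ (cO b) = cO (a * cjI b) ∧
        (∀ z : ℂ, (N : ℂ) * z ∈ Lam b → τ (xO b z) = xO (a * cjI b) ((starRingEnd ℂ) z) ∧
          τ (vO b z) = vO (a * cjI b) ((starRingEnd ℂ) z)) ∧
        ∀ c : Ideal (OO n t), G30 c → τ (rO b c) = rO (a * cjI b) (a * cjI c)) ∧
      (∀ (σ : Gal(Om/ℚ)) (a' : Ideal (OO n t)), Psi σ N a' → DR.PsiC (σ * τ) N (a' * a) ∧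
        DR.PsiC (τ * σ) N (a * cjI a')) ∧
      ∀ m b : Ideal (OO n t), m ≠ ⊥ → G30 b → PrI m 30 → NI m ∣ N → ∀ z : ℂ, (N : ℂ) * z ∈ Lam b →
        (z ∉ Lam (m * b) → τ (gO m b z) = gO (cjI m) (a * cjI b) ((starRingEnd ℂ) z)) ∧
        τ (Theta m b z) = Theta (cjI m) (a * cjI b) ((starRingEnd ℂ) z))

variable {n t : ℕ}

private theorem cj_top [SqN n t] : cjI (⊤ : Ideal (OO n t)) = ⊤ := by
  have h := (aO3 n t).2.2.2.1 (1 : OO n t)
  rw [cjO_one] at h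
  have e : sp (1 : OO n t) = ⊤ := Ideal.span_singleton_one
  rwa [e] at h

private theorem NI_cj [SqN n t] (m : Ideal (OO n t)) : NI (cjI m) = NI m := ((aO3 n t).2.2.1 m).2.1

private theorem e11 : DS.Eb.S_E11 := DS.Eb.tE11 DS.zR1 DS.zCj DS.zE1 DS.zE10

/-- The complex conjugation, and `PsiC`. -/
private theorem cj_ex : ∃ c : Gal(Om/ℚ), (∀ x : Om, c (c x) = x) ∧ (∀ x : Om, io (c x) = (starRingEnd ℂ) (io x)) ∧
    ∀ (n t : ℕ) [SqN n t], (∀ v : OO n t, c (toO v) = toO (cjO v)) ∧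
    (∀ (τ : Gal(Om/ℚ)) (N : ℕ) (a : Ideal (OO n t)), 0 < N → 15 ∣ N → DR.PsiC τ N a → Psi (τ * c) N a) ∧
    (∀ b : Ideal (OO n t), G30 b → G30 (cjI b) ∧ c (cO b) = cO (cjI b) ∧ c (sO b) = sO (cjI b) ∧
      (∀ z : ℂ, Tor n t z → c (xO b z) = xO (cjI b) ((starRingEnd ℂ) z) ∧
        c (vO b z) = vO (cjI b) ((starRingEnd ℂ) z)) ∧
      ∀ b' : Ideal (OO n t), G30 b' → c (rO b b') = rO (cjI b) (cjI b')) ∧
    ∀ m b : Ideal (OO n t), m ≠ ⊥ → G30 b → PrI m 30 → ∀ z : ℂ, Tor n t z →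
      (z ∉ Lam (m * b) → c (gO m b z) = gO (cjI m) (cjI b) ((starRingEnd ℂ) z)) ∧
      c (Theta m b z) = Theta (cjI m) (cjI b) ((starRingEnd ℂ) z) := by
  obtain ⟨c, hc, h⟩ := DM.zCj
  refine ⟨c, fun x => io_inj (by rw [hc, hc, Complex.conj_conj]), hc, fun n t _ => ?_⟩
  obtain ⟨h1, h2, h3⟩ := h n t
  refine ⟨h1, fun τ N a hN h15 hψ => ?_, h2, h3⟩
  obtain ⟨-, e2, e3, -⟩ := e11 n t N hN h15
  obtain ⟨-, -, -, -, e5⟩ := e2 τ a hψ
  have h4 := e5 c ⊤ (e3 c hc)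
  rwa [cj_top, Ideal.mul_top] at h4

/-- `PsiC`: the action on `K`. -/
private theorem psc_toO [SqN n t] {τ : Gal(Om/ℚ)} {N : ℕ} {a : Ideal (OO n t)} (hN : 0 < N)
    (h15 : 15 ∣ N) (hψ : DR.PsiC τ N a) (v : OO n t) : τ (toO v) = toO (cjO v) := by
  obtain ⟨c, hcc, -, h⟩ := cj_ex
  obtain ⟨h1, h2, -⟩ := h n t
  have hK : τ * c ∈ GK n t := DS.zPsK n t _ N a hN h15 (h2 τ N a hN h15 hψ)
  have h3 := GK_toO hK (cjO v)
  rw [AlgEquiv.mul_apply, ← h1 v, hcc] at h3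
  rw [h3, h1 v]

/-- **The first half of `S_E11`.** -/
theorem e11A : S_E11a := by
  obtain ⟨c, hcc, hc, h⟩ := cj_ex
  intro n t _ N hN h60
  have h15 : 15 ∣ N := Dvd.dvd.trans (by norm_num) h60
  obtain ⟨h1, h2, h3, h4⟩ := h n t
  obtain ⟨e1, e2, -⟩ := e11 n t N hN h15
  refine ⟨e1, fun τ a hψ => ?_⟩
  have hP := h2 τ N a hN h15 hψ
  obtain ⟨g0, g1, g2⟩ := DM.H3.zE10 n t (τ * c) N a hN h60 hP
  have hco : ∀ x : Om, τ x = (τ * c) (c x) := fun x => by rw [AlgEquiv.mul_apply, hcc]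
  refine ⟨g0, fun ζ hζ => ?_, fun b hb => ?_, (e2 τ a hψ).2.2.2.1, fun m b hm hb hm30 hmN z hz => ?_⟩
  · have hK : τ * c ∈ GK n t := DS.zPsK n t _ N a hN h15 hP
    have hz0 : ζ ≠ 0 := by
      rintro rfl
      rw [zero_pow hN.ne'] at hζ
      exact zero_ne_one hζ
    have hcz : c ζ = ζ⁻¹ := by
      apply io_inj
      have h5 : (io ζ) ^ N = 1 := by rw [← map_pow, hζ, map_one]
      have h6 : ‖io ζ‖ = 1 := Complex.norm_eq_one_of_pow_eq_one h5 hN.ne'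
      rw [hc, map_inv₀, Complex.inv_def, Complex.normSq_eq_norm_sq, h6]
      norm_num
    have h5 : (ζ⁻¹) ^ N = 1 := by rw [inv_pow, hζ, inv_one]
    rw [hco, hcz, DS.zE6 n t _ N a hK hN h15 hP _ h5, inv_pow, inv_mul_cancel₀ (pow_ne_zero _ hz0)]
  · obtain ⟨b1, b2, -, b3, b4⟩ := h3 b hb
    obtain ⟨-, k1, -, k2, k3⟩ := g1 _ b1
    refine ⟨by rw [hco, b2, k1], fun z hz => ?_, fun d hd => ?_⟩
    · have hT : Tor n t z := ((aL2 n t).2.2.2.2.2.2.2 b z hb.ne).2 ⟨N, hN, hz⟩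
      have hz' : (N : ℂ) * (starRingEnd ℂ) z ∈ Lam (cjI b) := by
        have e : (N : ℂ) * (starRingEnd ℂ) z = (starRingEnd ℂ) ((N : ℂ) * z) := by
          rw [map_mul, map_natCast]
        rw [e, lam_cj hb.ne]
        exact hz
      exact ⟨by rw [hco, (b3 z hT).1, (k2 _ hz').1], by rw [hco, (b3 z hT).2, (k2 _ hz').2]⟩
    · rw [hco, b4 d hd, k3 _ (g30_cj hd)]
  · have hT : Tor n t z := ((aL2 n t).2.2.2.2.2.2.2 b z hb.ne).2 ⟨N, hN, hz⟩
    have hz' : (N : ℂ) * (starRingEnd ℂ) z ∈ Lam (cjI b) := by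
      have e : (N : ℂ) * (starRingEnd ℂ) z = (starRingEnd ℂ) ((N : ℂ) * z) := by
        rw [map_mul, map_natCast]
      rw [e, lam_cj hb.ne]
      exact hz
    have hm' : cjI m ≠ ⊥ := Eb.ne_cj aO3 hm
    have hm30' : PrI (cjI m) 30 := ((aO3 n t).2.2.2.2.1 m 30).2 hm30
    have hmN' : NI (cjI m) ∣ N := by rwa [NI_cj]
    obtain ⟨k1, k2⟩ := h4 m b hm hb hm30 z hT
    obtain ⟨k3, k4⟩ := g2 (cjI m) (cjI b) hm' (g30_cj hb) hm30' hmN' _ hz'
    refine ⟨fun hz1 => ?_, by rw [hco, k2, k4]⟩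
    rw [hco, k1 hz1, k3]
    rw [← (aO3 n t).2.1 m b, lam_cj (Eb.ne_mul hm hb.ne)]
    exact hz1

/-! ## The second half -/

theorem w4_pow : w4 ^ 4 = 3 := by
  have h : ∃ y : Om, y ^ 4 = 3 := IsAlgClosed.exists_pow_nat_eq (3 : Om) (by norm_num : 0 < 4)
  unfold w4
  rw [dif_pos h]
  exact h.choose_spec

/-- A unit whose square is fixed is fixed by the inertia elements (`2` is a unit). -/
private theorem in_sq {P : Ideal ZZ} [P.IsPrime] (h2P : ¬ MP P 2) {σ : Gal(Om/ℚ)}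
    (hσ : σ ∈ P.inertia Gal(Om/ℚ)) {z : Om} (hz : UP P z) (h : σ (z ^ 2) = z ^ 2) : σ z = z := by
  rw [map_pow] at h
  rcases sq_eq_sq_iff_eq_or_eq_neg.1 h with h1 | h1
  · exact h1
  · exfalso
    have h3 := DI.VP.inertia hσ hz.1
    rw [h1] at h3
    have h4 : MP P (-(2 * z)) := by
      have e : -(2 * z) = -z - z := by ring
      rw [e]
      exact h3
    have h5 := h4.neg
    rw [neg_neg] at h5
    rcases DI.MP.mul_cases (DI.VP.nat 2) hz.1 (by exact_mod_cast h5) with h6 | h6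
    · exact h2P (by exact_mod_cast h6)
    · exact hz.2 h6

/-- An ideal which is trivial modulo `f` is generated by an element `1` modulo `f`. -/
private theorem ray_gen [SqN n t] {f : ℕ} {a : Ideal (OO n t)} (h : Ray f a (⊤ : Ideal (OO n t))) :
    ∃ y : OO n t, y ≠ 0 ∧ a = sp y ∧ (f : OO n t) ∣ y - 1 := by
  obtain ⟨α, α', hα0, hα'0, hcα, -, hd, he⟩ := h
  rw [Ideal.mul_top] at he
  have hm : α' ∈ sp α * a := by
    rw [he]
    exact Ideal.mem_span_singleton_self α'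
  obtain ⟨y, -, hy⟩ := Ideal.mem_span_singleton_mul.1 hm
  refine ⟨y, ?_, ?_, ?_⟩
  · rintro rfl
    exact hα'0 (by rw [← hy, mul_zero])
  · rw [← hy] at he
    have h5 : sp α * a = sp α * sp y := by
      rw [he]
      exact (Ideal.span_singleton_mul_span_singleton α y).symm
    exact (Ideal.span_singleton_mul_right_inj hα0).1 h5
  · obtain ⟨β, -, hβ⟩ := cop_inv hcα
    have h6 : y - 1 = -β * (α - α') - (α * β - 1) * (y - 1) := by
      rw [← hy]
      ring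
    rw [h6]
    exact dvd_sub (hd.mul_left _) (hβ.mul_right _)

/-- The number `fr(a)/fr(1)` is fixed by the inertia elements in `Gal(Om/K)`. -/
theorem rO_fix (hE4a : S_E4a) [Ram3 n t] {P : Ideal ZZ} (hP : Ab3 P) {σ : Gal(Om/ℚ)}
    (hσ : σ ∈ P.inertia Gal(Om/ℚ)) (hG : σ ∈ GK n t) {a : Ideal (OO n t)} (ha : G30 a) :
    σ (rO ⊤ a) = rO ⊤ a := by
  obtain ⟨d, hd⟩ := (DS.zE1 n t 60 (by norm_num) (by norm_num)).1 σ hG
  obtain ⟨gd, hd2, -⟩ := DM.H3.zE10 n t σ 60 d (by norm_num) dvd_rfl hd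
  have hray := (hE4a n t P hP σ hσ hG).1 60 20 d (by norm_num) (by norm_num) (by norm_num) (by norm_num) hd
  obtain ⟨y, hy0, rfl, hy⟩ := ray_gen hray
  have h4 : (4 : OO n t) ∣ y - 1 := by
    refine Dvd.dvd.trans ⟨5, ?_⟩ hy
    norm_num
  have h30 : Cop y 30 := ((aO6 n t).2.2.2.1 30 y (by norm_num)).1 gd.cop
  have e1 := (hd2 ⊤ g30_top).2.2.2.2 a ha
  rw [Ideal.mul_top] at e1
  have X := DM.zXOm n t ⊤ g30_top
  have Xa := DM.zXOm n t a ha
  have e2 := (X.hom y hy0 h4 h30).2.1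
  rw [Ideal.mul_top] at e2
  have e3 := (Xa.hom y hy0 h4 h30).2.1
  have gya : G30 (sp y * a) := G30.mul gd ha
  have e4 := X.rr (sp y) (sp y * a) gd gya
  have e5 := X.rr a (sp y * a) ha gya
  rw [e2] at e4
  rw [e3] at e5
  have hy0' : toO y ≠ 0 := by
    intro h0
    have := congrArg io h0
    rw [io_toO, map_zero, toC_eq_zero] at this
    exact hy0 this
  rw [e1]
  apply mul_left_cancel₀ hy0'
  rw [e4, ← e5, mul_comm]

/-- **`S_E11`.** -/
theorem sE11 (hE4a : S_E4a) (hD1 : DM.S_D1) (hD2 : S_D2) (hD10 : S_D10) : S_E11 := by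
  refine ⟨e11A, ?_⟩
  intro n t _ P hP τ hi N a hN h60 hψ
  have : P.IsPrime := hP.1.1
  have h15 : 15 ∣ N := Dvd.dvd.trans (by norm_num) h60
  have v3 : MP P (3 : Om) := hP.2
  have h2P : ¬ MP P 2 := by
    intro h2
    have h := DI.MP.sub v3 h2
    have e : (3 : Om) - 2 = 1 := by norm_num
    rw [e] at h
    exact DI.MP.one_not h
  have hw := w4_pow
  have w0 : w4 ≠ 0 := by
    intro h0
    rw [h0] at hw
    norm_num at hw
  have vw : MP P w4 := DI.MP.of_pow (n := 4) (by rw [hw]; exact v3)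
  obtain ⟨D', hD, hco⟩ := D3 (n := n) (t := t)
  have hs2 : toO (sD n t) ^ 2 = -(3 * (D' : Om)) := by
    apply io_inj
    rw [map_pow, io_toO, ← toC_pow, sq, sD_sq, toC_neg, toC_nat, hD, map_neg, map_mul, map_natCast]
    have e3 : io (3 : Om) = 3 := by
      have := map_natCast io 3
      exact_mod_cast this
    rw [e3]
    push_cast
    ring
  have sne := toO_sD_ne (n := n) (t := t)
  have hD'u : UP P (D' : Om) := by
    refine ⟨DI.VP.nat D', fun hM => ?_⟩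
    obtain ⟨x, y, hxy⟩ := Nat.isCoprime_iff_coprime.2 hco
    have h5 : MP P ((x : Om) * (D' : Om) + (y : Om) * 3) :=
      (DI.MP.mul_left (DI.VP.int x) hM).add (DI.MP.mul_left (DI.VP.int y) v3)
    have h6 := congrArg (Int.cast : ℤ → Om) hxy
    push_cast at h6
    rw [h6] at h5
    exact DI.MP.one_not h5
  have hD'0 : (D' : Om) ≠ 0 := hD'u.ne_zero
  obtain ⟨-, e11b⟩ := e11A n t N hN h60
  obtain ⟨ga, -, hb, -, -⟩ := e11b τ a hψ
  obtain ⟨-, hb2, -⟩ := hb ⊤ g30_top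
  rw [cj_top, Ideal.mul_top] at hb2
  -- the conjugation on `√-D`
  have hsD : τ (toO (sD n t)) = -toO (sD n t) := by
    rw [psc_toO hN h15 hψ, cj_sD]
    apply io_inj
    rw [map_neg, io_toO, io_toO, toC_neg]
  -- `iota`
  set ι : Om := τ w4 / w4 with hι
  have hτw : τ w4 = ι * w4 := by
    rw [hι, div_mul_cancel₀ _ w0]
  have hy2 : (w4 ^ 2 / toO (sD n t)) ^ 2 = -(D' : Om)⁻¹ := by
    rw [div_pow, hs2]
    have e : (w4 ^ 2) ^ 2 = w4 ^ 4 := by ring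
    rw [e, hw]
    field_simp
  have hyU : UP P (w4 ^ 2 / toO (sD n t)) := by
    refine DI.UP.of_pow (n := 2) (by norm_num) ?_
    rw [hy2]
    exact hD'u.inv.neg
  have hyf : τ (w4 ^ 2 / toO (sD n t)) = w4 ^ 2 / toO (sD n t) := by
    refine in_sq h2P hi hyU ?_
    rw [hy2, map_neg, map_inv₀, map_natCast]
  have hι2 : ι ^ 2 = -1 := by
    rw [map_div₀, hsD, map_pow, hτw] at hyf
    field_simp at hyf
    linear_combination -hyf
  have hιU : UP P ι := by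
    refine DI.UP.of_pow (n := 2) (by norm_num) ?_
    rw [hι2]
    exact DI.UP.one.neg
  -- `r`
  set r : Om := rO ⊤ a with hr
  have hrU : UP P r := by
    have h := (hD2 n t P hP ⊤ g30_top).2.2.2.2.2.2 a ga.ne ga.cop
    rwa [Ideal.mul_top] at h
  -- the isogeny
  have hI := isoT DM.zXOm hD1 hD2 hP h2P (g30_top (n := n) (t := t)) ga.ne ga.cop
  rw [Ideal.mul_top] at hI
  obtain ⟨-, -, hW⟩ := hD10 n t P hP ⊤ g30_top
  set W : Om := vO ⊤ (T3 n t) with hWdef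
  set W' : Om := vO a (T3 n t) with hW'def
  have hτW : τ W = -W' := by
    have hz : (N : ℂ) * T3 n t ∈ Lam (⊤ : Ideal (OO n t)) := by
      obtain ⟨k, hk⟩ := h60
      have e : (N : ℂ) * T3 n t = toC ((20 * k : ℕ) : OO n t) * (3 * T3 n t) := by
        rw [hk, toC_nat]
        push_cast
        ring
      rw [e]
      exact lam_mul _ (T3_three _)
    have hcj : (starRingEnd ℂ) (T3 n t) = -T3 n t := by
      unfold T3
      rw [map_div₀, conj_toC, cj_sD, toC_neg]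
      have e3 : (starRingEnd ℂ) (3 : ℂ) = 3 := by
        have := map_natCast (starRingEnd ℂ) 3
        exact_mod_cast this
      rw [e3]
      ring
    rw [hWdef, (hb2 _ hz).2, hcj, (DM.zXOm n t a ga).neg _ T3_tor |>.2]
  -- the unit `rho`
  have hρ : UP P (W * w4 ^ 3) := by
    refine DI.UP.of_pow (n := 4) (by norm_num) ?_
    have e : (W * w4 ^ 3) ^ 4 = 27 * W ^ 4 := by
      have e1 : (W * w4 ^ 3) ^ 4 = W ^ 4 * (w4 ^ 4) ^ 3 := by ring
      rw [e1, hw]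
      ring
    rw [e]
    exact hW
  have hinr := DI.VP.inertia hi hρ.1
  rw [map_mul, map_pow, hτW, hτw] at hinr
  have hE : MP P ((r ^ 3 + ι ^ 3) * (W * w4 ^ 3)) := by
    have e : (r ^ 3 + ι ^ 3) * (W * w4 ^ 3) = -(r ^ 3 * (-W' * (ι * w4) ^ 3 - W * w4 ^ 3)) -
        (r ^ 3 * W' - W) * (ι ^ 3 * w4 ^ 3) := by ring
    rw [e]
    refine DI.MP.sub (DI.MP.neg (DI.MP.mul_left (hrU.pow 3).1 hinr)) ?_
    refine DI.MP.mul_left hI (DI.MP.mul_left (hιU.pow 3).1 ?_)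
    have e2 : w4 ^ 3 = w4 * w4 ^ 2 := by ring
    rw [e2]
    exact DI.MP.mul_right vw (vw.vp.pow 2)
  have hcub : MP P (r ^ 3 + ι ^ 3) := by
    rcases DI.MP.mul_cases ((hrU.pow 3).1.add (hιU.pow 3).1) hρ.1 hE with h | h
    · exact h
    · exact absurd h hρ.2
  have hsum : MP P (ι + r) := by
    refine DI.MP.of_pow (n := 3) ?_
    have e : (ι + r) ^ 3 = (r ^ 3 + ι ^ 3) + 3 * (r * ι * (ι + r)) := by ring
    rw [e]
    exact hcub.add (DI.MP.mul_right v3 ((hrU.1.mul hιU.1).mul (hιU.1.add hrU.1)))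
  refine ⟨?_, hsum, ?_⟩
  · have e : r ^ 2 + 1 = (ι + r) * (r - ι) := by linear_combination hι2
    rw [e]
    exact DI.MP.mul_right hsum (hrU.1.sub hιU.1)
  · by_cases hx0 : ι + r = 0
    · rw [hx0, zero_div]
      exact DI.VP.zero
    · have hPl : DL.Pl P 3 := ⟨by norm_num, by exact_mod_cast v3⟩
      have hfix : DL.Fi (P.inertia Gal(Om/ℚ) ⊓ GK n t) (ι + r) := by
        rintro σ ⟨hσ, hG⟩
        rw [map_add, rO_fix hE4a hP hσ hG ga]
        rw [in_sq h2P hσ hιU (by rw [hι2, map_neg, map_one])]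
      have hidx : ∀ g g' : Gal(Om/ℚ), g ∉ GK n t → g' ∉ GK n t → g * g' ∈ GK n t := by
        intro g g' hg hg'
        have h1 := ((e11 n t 15 (by norm_num) dvd_rfl).1 g hg).2
        have h2 := ((e11 n t 15 (by norm_num) dvd_rfl).1 g' hg').2
        rw [mem_GK_iff, AlgEquiv.mul_apply, ← toO_wI, h2, h1, cjO_cjO]
      obtain ⟨j, hj⟩ := DL.tK2 DL.tK0 P 3 (GK n t) hP.1.1 Nat.prime_three hPl hidx _ hfix hx0
      have hpos := (DL.vl_pos hPl hx0).2 hsum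
      have hj1 : 1 ≤ j := by
        rw [hj] at hpos
        have : (0 : ℚ) < j := by linarith
        have : 0 < j := by exact_mod_cast this
        omega
      have hvs : DL.vl P 3 (toO (sD n t)) = 1 / 2 := by
        have h := DL.vl_eq (b := 2) (a := 1) hPl (x := toO (sD n t)) (by norm_num) (by
          have e : toO (sD n t) ^ 2 / ((3 : ℕ) : Om) ^ (1 : ℤ) = -(D' : Om) := by
            rw [hs2, zpow_one]
            push_cast
            field_simp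
          rw [e]
          exact hD'u.neg)
        rw [h]
        norm_num
      rw [← DL.vl_nonneg hPl (div_ne_zero hx0 sne), DL.vl_div hPl hx0 sne, hvs, hj]
      have : (1 : ℚ) ≤ j := by exact_mod_cast hj1
      linarith

end Pool.Agent.DM.DU
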