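import Pool.Agent.Lib.DU.E.E4a
import Pool.Agent.Lib.DU.E.E11
import Pool.Agent.Lib.DM.D.D1

/-!
# Theorem DU, part E: assembly (author helper39)

`S_E4a` from `DM.S_R2`; the first half `e11A` of `S_E11` without hypotheses; `S_E11` from `DM.S_R2`, `S_D2`, `S_D10`.
-/

set_option autoImplicit false

noncomputable section

namespace Pool.Agent.DM.DU

theorem mD1 : DM.S_D1 := DM.tD1 DM.zR1

theorem mE4n (hR2 : DM.S_R2) : DM.S_E4n := DM.sE4n DM.zXOm DM.zR1 hR2 mD1 DS.zE1 DM.H3.zE10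

theorem mE4a (hR2 : DM.S_R2) : S_E4a := sE4a DM.zXOm DM.zR1 hR2 mD1 DS.zE1 DM.H3.zE10

theorem mE11 (hR2 : DM.S_R2) (hD2 : S_D2) (hD10 : S_D10) : S_E11 := sE11 (mE4a hR2) mD1 hD2 hD10

end Pool.Agent.DM.DU
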