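import Pool.Agent.Lib.DU.Iface
import Pool.Agent.Lib.DM.E.InC

/-!
# Theorem DU, part E: inertia above `3` (`3` ramified): `S_E4a` (author helper39)
-/

set_option autoImplicit false

open scoped Pointwise nonZeroDivisors

noncomputable section

namespace Pool.Agent.DM.DU

open Pool.Agent.MuZ Pool.Agent.FW NumberField IsDedekindDomain
open Pool.Agent.DI (io ofC io_inj exists_io io_ofC ofC_io VP MP UP TP ex)
open Pool.Agent.DN

variable {n t : ℕ}

/-- The torsion prime to `3` (all fields, supersingular reduction). -/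
theorem ine_ray (hX : DM.S_XOm) (hR1 : DM.S_R1) (hD1 : DM.S_D1) (hE1 : DS.S_E1) (hE10 : DM.S_E10)
    [SqN n t] {P : Ideal ZZ} (hS : S3 n t P) {τ : Gal(Om/ℚ)} (hτ : τ ∈ GK n t)
    (hi : τ ∈ P.inertia Gal(Om/ℚ)) {N N' : ℕ} {a : Ideal (OO n t)} (hN : 0 < N) (h15 : 15 ∣ N)
    (hN'N : N' ∣ N) (hN'3 : N'.Coprime 3) (hψ : Psi τ N a) : Ray N' a (⊤ : Ideal (OO n t)) := by
  have hN'0 : 0 < N' := Nat.pos_of_dvd_of_pos hN'N hN
  obtain ⟨a', ha'⟩ := (hE1 n t (60 * N) (by positivity) (h15.mul_left 60)).1 τ hτ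
  have h1 : Psi τ N a' := Eb.psi_level ha' ⟨60, by ring⟩
  have hray : Ray N' a' a := ray_dvd ((hE1 n t N hN h15).2.1 τ a' a h1 hψ) hN'N
  have hLv : Lv (20 * N') := ⟨by positivity, Dvd.dvd.mul_right (by norm_num) N',
    Nat.Coprime.mul_left (by norm_num) hN'3⟩
  have h2 : Psi τ (3 * (20 * N')) a' := Eb.psi_level ha' (by
    obtain ⟨k, rfl⟩ := hN'N
    exact ⟨k, by ring⟩)
  have h3 := in_main hX hR1 hD1 hE1 hE10 hS hτ hi hLv ⟨N', rfl⟩ h2
  obtain ⟨-, o2, o3, -⟩ := aO7 n t N' hN'0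
  exact o3 _ _ _ (o2 _ _ hray) (ray_dvd h3 ⟨20, by ring⟩)

/-- `y ^ 6 = 1` modulo `3` for `y` prime to `3`. -/
theorem six_pow [h : Ram3 n t] {y : OO n t} (hy : Cop y 3) : ((3 : ℕ) : OO n t) ∣ y ^ 6 - 1 := by
  have hD : (3 : ℤ) ∣ 4 * n - (t : ℤ) ^ 2 := by
    rw [← Dk_cast]
    exact_mod_cast Nat.dvd_of_mod_eq_zero h.zero
  obtain ⟨D', hD'⟩ := hD
  -- the norm is `1` modulo `3`
  have hN : (3 : ℤ) ∣ Nm y - 1 := by
    have h4 := four_Nm y
    rw [hD'] at h4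
    have h5 : ¬ (3 : ℤ) ∣ Nm y := by
      intro h6
      obtain ⟨a, b, hab⟩ := hy
      obtain ⟨c, hc⟩ := h6
      rw [hc] at hab
      have : (3 : ℤ) ∣ 1 := ⟨a * c + b, by
        push_cast at hab
        linarith⟩
      omega
    set s := 2 * y.re + t * y.im
    have h7 : (3 : ℤ) ∣ Nm y - s ^ 2 := ⟨D' * y.im ^ 2 - Nm y, by linarith⟩
    have h8 : s % 3 = 0 ∨ s % 3 = 1 ∨ s % 3 = 2 := by omega
    rcases h8 with h8 | h8 | h8
    · exfalso
      apply h5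
      have h9 : (3 : ℤ) ∣ s := Int.dvd_of_emod_eq_zero h8
      have h10 : (3 : ℤ) ∣ s ^ 2 := Dvd.dvd.trans h9 (dvd_pow_self s two_ne_zero)
      have := dvd_add h7 h10
      rwa [sub_add_cancel] at this
    · have h9 : (3 : ℤ) ∣ s - 1 := by omega
      have h10 : (3 : ℤ) ∣ s ^ 2 - 1 := by
        have e : s ^ 2 - 1 = (s - 1) * (s + 1) := by ring
        rw [e]
        exact h9.mul_right _
      have := dvd_add h7 h10
      rwa [sub_add_sub_cancel] at this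
    · have h9 : (3 : ℤ) ∣ s + 1 := by omega
      have h10 : (3 : ℤ) ∣ s ^ 2 - 1 := by
        have e : s ^ 2 - 1 = (s + 1) * (s - 1) := by ring
        rw [e]
        exact h9.mul_right _
      have := dvd_add h7 h10
      rwa [sub_add_sub_cancel] at this
  -- `(y - ȳ)² = - D im²`
  have hsq : ((3 : ℕ) : OO n t) ∣ (y - cjO y) ^ 2 := by
    have e : (y - cjO y) ^ 2 = ((3 : ℕ) : OO n t) * ((-(D' * y.im ^ 2) : ℤ) : OO n t) := by
      have e1 : (y - cjO y) ^ 2 = (((2 * y.re + t * y.im) ^ 2 - 4 * Nm y : ℤ) : OO n t) := by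
        have e2 : y + cjO y = ((2 * y.re + t * y.im : ℤ) : OO n t) := by
          refine ext' ?_ ?_
          · rw [QuadraticAlgebra.re_add, re_int]
            simp only [cjO]
            ring
          · rw [QuadraticAlgebra.im_add, im_int]
            simp only [cjO]
            ring
        have e3 := mul_cjO y
        push_cast at e2 ⊢
        rw [← e2, ← e3]
        ring
      rw [e1]
      have e4 : (2 * y.re + t * y.im) ^ 2 - 4 * Nm y = 3 * (-(D' * y.im ^ 2)) := by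
        have h4 := four_Nm y
        rw [hD'] at h4
        linarith
      rw [e4]
      push_cast
      ring
    rw [e]
    exact dvd_mul_right _ _
  have hN' : ((3 : ℕ) : OO n t) ∣ y * cjO y - 1 := by
    rw [mul_cjO]
    obtain ⟨c, hc⟩ := hN
    refine ⟨(c : OO n t), ?_⟩
    have := congrArg (fun x : ℤ => (x : OO n t)) hc
    push_cast at this ⊢
    exact this
  obtain ⟨u, hu⟩ := hsq
  obtain ⟨v, hv⟩ := hN'
  -- `y³ - ȳ³ = (y - ȳ)((y - ȳ)² + 3 y ȳ)`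
  have h3 : ((3 : ℕ) : OO n t) ∣ y ^ 3 - cjO y ^ 3 := by
    refine ⟨(y - cjO y) * (u + y * cjO y), ?_⟩
    push_cast at hu ⊢
    linear_combination (y - cjO y) * hu
  obtain ⟨w, hw⟩ := h3
  refine ⟨y ^ 3 * w + v * ((y * cjO y) ^ 2 + y * cjO y + 1), ?_⟩
  push_cast at hw hv ⊢
  linear_combination y ^ 3 * hw + ((y * cjO y) ^ 2 + y * cjO y + 1) * hv

/-- **`S_E4a`.** -/
theorem sE4a (hX : DM.S_XOm) (hR1 : DM.S_R1) (hR2 : DM.S_R2) (hD1 : DM.S_D1) (hE1 : DS.S_E1)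
    (hE10 : DM.S_E10) : S_E4a := by
  intro n t _ P hP τ hi hτ
  have hS : S3 n t P := ⟨hP, hR2.2.1 n t P hP ⊤ g30_top⟩
  refine ⟨fun N N' a hN h15 hN'N hN'3 hψ =>
    ine_ray hX hR1 hD1 hE1 hE10 hS hτ hi hN h15 hN'N hN'3 hψ, fun f hf h5 hf3 x hx => ?_⟩
  have h15 : 15 ∣ 3 * f := by
    obtain ⟨k, rfl⟩ := h5
    exact ⟨k, by ring⟩
  have h3f : 0 < 3 * f := by positivity
  obtain ⟨a, ha⟩ := (hE1 n t (3 * f) h3f h15).1 τ hτ
  have hray := ine_ray hX hR1 hD1 hE1 hE10 hS hτ hi h3f h15 ⟨3, by ring⟩ hf3 ha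
  obtain ⟨α, α', hα0, hα'0, hcα, -, hd, he⟩ := hray
  rw [Ideal.mul_top] at he
  have hm : α' ∈ sp α * a := by
    rw [he]
    exact Ideal.mem_span_singleton_self α'
  obtain ⟨y, -, hy⟩ := Ideal.mem_span_singleton_mul.1 hm
  have hay : a = sp y := by
    rw [← hy] at he
    have h5 : sp α * a = sp α * sp y := by
      rw [he]
      exact (Ideal.span_singleton_mul_span_singleton α y).symm
    exact (Ideal.span_singleton_mul_right_inj hα0).1 h5
  have hy0 : y ≠ 0 := by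
    rintro rfl
    exact hα'0 (by rw [← hy, mul_zero])
  have hfy : (f : OO n t) ∣ y - 1 := by
    obtain ⟨β, -, hβ⟩ := cop_inv hcα
    have h6 : y - 1 = -β * (α - α') - (α * β - 1) * (y - 1) := by
      rw [← hy]
      ring
    rw [h6]
    exact dvd_sub (hd.mul_left _) (hβ.mul_right _)
  have hcy : Cop y (3 * f) := by
    refine ((aO6 n t).2.2.2.1 (3 * f) y h3f).1 ?_
    rw [← hay]
    exact Eb.psi_pri ha
  have h3y := six_pow (cop_dvd hcy (dvd_mul_right 3 f))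
  have hfy6 : (f : OO n t) ∣ y ^ 6 - 1 := by
    have e : y ^ 6 - 1 = (y - 1) * (y ^ 5 + y ^ 4 + y ^ 3 + y ^ 2 + y + 1) := by ring
    rw [e]
    exact hfy.mul_right _
  have hcop : IsCoprime ((3 : ℕ) : OO n t) (f : OO n t) := by
    have h1 : IsCoprime ((3 : ℕ) : ℤ) ((f : ℕ) : ℤ) := Nat.isCoprime_iff_coprime.2 hf3.symm
    obtain ⟨r, s, hrs⟩ := h1
    refine ⟨(r : OO n t), (s : OO n t), ?_⟩
    have := congrArg (fun x : ℤ => (x : OO n t)) hrs
    push_cast at this ⊢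
    exact this
  have h3fy : ((3 * f : ℕ) : OO n t) ∣ y ^ 6 - 1 := by
    rw [Nat.cast_mul]
    exact hcop.mul_dvd h3y hfy6
  have hψ2 : Psi (τ ^ 2) (3 * f) (a ^ 2) := psi_pow ha 2
  have hHP : HP f (a ^ 2) := by
    refine ⟨y ^ 2, pow_ne_zero 2 hy0, ⟨?_, 1, ?_⟩, ?_⟩
    · rw [pow_two]
      exact cop_mul hcy hcy
    · have e : (y ^ 2) ^ 3 ^ 1 - 1 = y ^ 6 - 1 := by ring
      rw [e]
      exact h3fy
    · have e : a ^ 2 = sp (y ^ 2) := by
        rw [hay]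
        exact Ideal.span_singleton_pow y 2
      rw [e]
      exact (aO7 n t (3 * f) h3f).1 _
  exact hx (τ ^ 2) (pow_mem hτ 2) (a ^ 2) hψ2 hHP

end Pool.Agent.DM.DU
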